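import Pool.Agent.H87.Comm.TwoMain

/-! Commutators of invertible matrices over a commutative ring, in particular over the integers:
a reduction from size `n ≥ 3` to commutators of size two. -/

open Matrix

namespace Pool.Agent.Results.MP_584b0c_al.AlmostCyclicCommutators

/-- The matrix with columns `v, C v, C² v, …, C^(n-2) v, u`. -/
def krylovWith {R : Type*} [CommRing R] {n : ℕ} (C : Matrix (Fin n) (Fin n) R)
    (v u : Fin n → R) : Matrix (Fin n) (Fin n) R :=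
  Matrix.of fun i k => if (k : ℕ) + 1 < n then ((C ^ (k : ℕ)) *ᵥ v) i else u i

theorem krylovWith_eq {R : Type*} [CommRing R] {m : ℕ} (C : Matrix (Fin (m + 2)) (Fin (m + 2)) R)
    (v u : Fin (m + 2) → R) : Pool.Agent.H87.Comm.KK C v u = krylovWith C v u := by
  ext i k
  rw [Pool.Agent.H87.Comm.KK, krylovWith, Matrix.of_apply, Matrix.of_apply]
  by_cases hk : (k : ℕ) < m + 1
  · rw [if_pos hk, if_pos (by omega)]
  · rw [if_neg hk, if_neg (by omega)]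

/-- Let `n ≥ 3` and let `C` be an `n × n` matrix of determinant `1` over a commutative ring such
that `v, C v, …, C^(n-2) v, u` is a basis for some vectors `v`, `u`, and suppose that
`C u = s₀ u + s₁ v` where `(s₀, s₁)` is the first column of `a h a⁻¹ h⁻¹` for some invertible
`2 × 2` matrices `a`, `h` with `det (a - 1)` a unit. Then `C = A B A⁻¹ B⁻¹` with invertible
`n × n` matrices `A`, `B` over that ring. -/
theorem result {R : Type*} [CommRing R] (n : ℕ) (hn : 3 ≤ n) (C : Matrix (Fin n) (Fin n) R)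
    (hC : C.det = 1) (v u : Fin n → R) (hb : IsUnit (krylovWith C v u).det)
    (a h : (Matrix (Fin 2) (Fin 2) R)ˣ)
    (ha : IsUnit ((a : Matrix (Fin 2) (Fin 2) R) - 1).det)
    (hu : C *ᵥ u =
      ((a * h * a⁻¹ * h⁻¹ : (Matrix (Fin 2) (Fin 2) R)ˣ) : Matrix (Fin 2) (Fin 2) R) 0 0 • u +
      ((a * h * a⁻¹ * h⁻¹ : (Matrix (Fin 2) (Fin 2) R)ˣ) : Matrix (Fin 2) (Fin 2) R) 1 0 • v) :
    ∃ A B : (Matrix (Fin n) (Fin n) R)ˣ,
      ((A * B * A⁻¹ * B⁻¹ : (Matrix (Fin n) (Fin n) R)ˣ) : Matrix (Fin n) (Fin n) R) = C := by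
  obtain ⟨m, rfl⟩ : ∃ m, n = m + 2 := ⟨n - 2, by omega⟩
  exact Pool.Agent.H87.Comm.gen_commutator2 (by omega) C hC v u a h ha hu
    (by rw [krylovWith_eq]; exact hb)

/-- Special case: `C u = ε u + d v` with `ε² = 1` and any `d`. -/
theorem sq_one {R : Type*} [CommRing R] (n : ℕ) (hn : 3 ≤ n) (C : Matrix (Fin n) (Fin n) R)
    (hC : C.det = 1) (v u : Fin n → R) (hb : IsUnit (krylovWith C v u).det)
    (ε d : R) (hε : ε * ε = 1) (hu : C *ᵥ u = ε • u + d • v) :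
    ∃ A B : (Matrix (Fin n) (Fin n) R)ˣ,
      ((A * B * A⁻¹ * B⁻¹ : (Matrix (Fin n) (Fin n) R)ˣ) : Matrix (Fin n) (Fin n) R) = C := by
  obtain ⟨a, h, ha, h0, h1⟩ := Pool.Agent.H87.Comm.pair_sq_one ε d hε
  refine result n hn C hC v u hb a h ha ?_
  rw [h0, h1]
  exact hu

/-- Special case: a cyclic vector `v`, that is, `v, C v, …, C^(n-1) v` is a basis. -/
theorem cyclic {R : Type*} [CommRing R] (n : ℕ) (hn : 3 ≤ n) (C : Matrix (Fin n) (Fin n) R)
    (hC : C.det = 1) (v : Fin n → R)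
    (hv : IsUnit (Matrix.of fun (i k : Fin n) => ((C ^ (k : ℕ)) *ᵥ v) i).det) :
    ∃ A B : (Matrix (Fin n) (Fin n) R)ˣ,
      ((A * B * A⁻¹ * B⁻¹ : (Matrix (Fin n) (Fin n) R)ˣ) : Matrix (Fin n) (Fin n) R) = C := by
  obtain ⟨m, rfl⟩ : ∃ m, n = m + 2 := ⟨n - 2, by omega⟩
  obtain ⟨u, d, hu, hb⟩ := Pool.Agent.H87.Comm.cyclic_almost C v hv
  exact sq_one (m + 2) hn C hC v u (by rw [← krylovWith_eq]; exact hb) 1 d (one_mul 1) hu

/-- An example beyond `ε² = 1`: over the integers `(3, 5)` is such a first column. -/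
theorem pair_three_five : ∃ a h : (Matrix (Fin 2) (Fin 2) ℤ)ˣ,
    IsUnit ((a : Matrix (Fin 2) (Fin 2) ℤ) - 1).det ∧
      ((a * h * a⁻¹ * h⁻¹ : (Matrix (Fin 2) (Fin 2) ℤ)ˣ) : Matrix (Fin 2) (Fin 2) ℤ) 0 0 = 3 ∧
      ((a * h * a⁻¹ * h⁻¹ : (Matrix (Fin 2) (Fin 2) ℤ)ˣ) : Matrix (Fin 2) (Fin 2) ℤ) 1 0 = 5 :=
  ⟨⟨!![12, -7; 19, -11], !![-11, 7; -19, 12], by decide, by decide⟩,
    ⟨!![-5, 3; -8, 5], !![-5, 3; -8, 5], by decide, by decide⟩, by decide, by decide, by decide⟩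

end Pool.Agent.Results.MP_584b0c_al.AlmostCyclicCommutators
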