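import Pool.Agent.H18.IC.LU

/-!
# Doubling: integral matrices satisfying a quadratic block relation are commutators
-/

set_option autoImplicit false

open Matrix Polynomial

namespace Pool.Agent.Results.MP_584b0c_al.BlockCompanion

open Pool.Agent.H18.IC

variable {R : Type} [CommRing R]

/-- Let `k ≥ 2` and let `C` be a square matrix over the commutative ring `R`, with a `k`-rowed matrix
`U` such that the rows of `U` and of `U C` together are a basis. Write `U C² = -W U + V U C`. If `W`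
is a product `[P, Q] [P', Q']` of two commutators in `GL_k(R)` such that `P' = 1` or the
characteristic polynomials of `Q` and `Q'` are coprime, then `C` is a single commutator. -/
theorem result (k : ℕ) (hk : 2 ≤ k) (n : ℕ) (C : Matrix (Fin n) (Fin n) R)
    (U : Matrix (Fin k) (Fin n) R) (T' : Matrix (Fin n) (Fin k ⊕ Fin k) R)
    (h1 : fromRows U (U * C) * T' = 1) (h2 : T' * fromRows U (U * C) = 1)
    (V : Matrix (Fin k) (Fin k) R) (P Q P' Q' : (Matrix (Fin k) (Fin k) R)ˣ)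
    (hQ : P' = 1 ∨ IsUnit (aeval (Q' : Matrix (Fin k) (Fin k) R)
      (Q : Matrix (Fin k) (Fin k) R).charpoly))
    (hC : U * C * C = -((P * Q * P⁻¹ * Q⁻¹ * (P' * Q' * P'⁻¹ * Q'⁻¹) :
      (Matrix (Fin k) (Fin k) R)ˣ) : Matrix (Fin k) (Fin k) R) * U + V * (U * C)) :
    ∃ A B : (Matrix (Fin n) (Fin n) R)ˣ,
      ((A * B * A⁻¹ * B⁻¹ : (Matrix (Fin n) (Fin n) R)ˣ) : Matrix (Fin n) (Fin n) R) = C := by
  obtain ⟨A, B, hAB⟩ : ∃ A B : (Matrix (Fin k ⊕ Fin k) (Fin k ⊕ Fin k) R)ˣ,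
      ((A * B * A⁻¹ * B⁻¹ : (Matrix (Fin k ⊕ Fin k) (Fin k ⊕ Fin k) R)ˣ) :
        Matrix (Fin k ⊕ Fin k) (Fin k ⊕ Fin k) R) =
        fromBlocks 0 1 (-((P * Q * P⁻¹ * Q⁻¹ * (P' * Q' * P'⁻¹ * Q'⁻¹) :
          (Matrix (Fin k) (Fin k) R)ˣ) : Matrix (Fin k) (Fin k) R)) V := by
    rcases hQ with rfl | hQ
    · have e : P * Q * P⁻¹ * Q⁻¹ * (1 * Q' * 1⁻¹ * Q'⁻¹) = P * Q * P⁻¹ * Q⁻¹ := by group
      rw [e]
      exact one k hk P Q V
    · exact two P Q P' Q' _ (Matrix.aeval_self_charpoly _) hQ V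
  refine transport (fromRows U (U * C)) T' h1 h2 C A B ?_
  rw [hAB, fromBlocks_mul_fromRows, fromRows_mul, hC, Matrix.zero_mul, Matrix.one_mul, zero_add]

end Pool.Agent.Results.MP_584b0c_al.BlockCompanion
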