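import Pool.Agent.H18.IC.BlockCyc4

/-!
# Matrices with a cyclic block of rows are commutators
-/

set_option autoImplicit false

open Matrix Polynomial

namespace Pool.Agent.Results.MP_584b0c_al.BlockCyclic

open Pool.Agent.H18.IC

variable {R : Type} [CommRing R]

/-- The indices of `r + 3` blocks. -/
private def f (r k : ℕ) : (Fin (r + 1) × Fin k) ⊕ (Fin k ⊕ Fin k) → Fin (r + 3) × Fin k
  | Sum.inl p => (⟨p.1, by omega⟩, p.2)
  | Sum.inr (Sum.inl a) => (⟨r + 1, by omega⟩, a)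
  | Sum.inr (Sum.inr a) => (⟨r + 2, by omega⟩, a)

private theorem f_bij (r k : ℕ) : Function.Bijective (f r k) := by
  constructor
  · rintro (⟨⟨i, hi⟩, a⟩ | a | a) (⟨⟨j, hj⟩, b⟩ | b | b) h <;>
      simp only [f, Prod.mk.injEq, Fin.mk.injEq] at h
    · obtain ⟨rfl, rfl⟩ := h; rfl
    · omega
    · omega
    · omega
    · obtain ⟨_, rfl⟩ := h; rfl
    · omega
    · omega
    · omega
    · obtain ⟨_, rfl⟩ := h; rfl
  · rintro ⟨⟨i, hi⟩, a⟩
    by_cases h1 : i < r + 1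
    · exact ⟨Sum.inl (⟨i, h1⟩, a), rfl⟩
    · by_cases h2 : i = r + 1
      · subst h2; exact ⟨Sum.inr (Sum.inl a), rfl⟩
      · have h3 : i = r + 2 := by omega
        subst h3; exact ⟨Sum.inr (Sum.inr a), rfl⟩

/-- Let `C` be a square matrix over the commutative ring `R`, `m ≥ 3`, and `U` a `k`-rowed matrix
such that the rows of `U`, `U C`, ..., `U C^(m-1)` together are a basis. Write
`U C^m = (-1)^(m+1) W U + V₀ U C + ... + V_(m-2) U C^(m-1)`. If `W = 1`, or if `W` is a product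
`[P, Q] [P', Q']` in `GL_k(R)` with `Q - 1`, `Q' - 1` and `p(Q')` invertible, `p` being the
characteristic polynomial of `Q`, then `C` is a commutator. -/
theorem result (m k n : ℕ) (hm : 3 ≤ m) (C : Matrix (Fin n) (Fin n) R)
    (U : Matrix (Fin k) (Fin n) R) (T' : Matrix (Fin n) (Fin m × Fin k) R)
    (h1 : (Matrix.of fun (p : Fin m × Fin k) j => (U * C ^ (p.1 : ℕ)) p.2 j) * T' = 1)
    (h2 : T' * (Matrix.of fun (p : Fin m × Fin k) j => (U * C ^ (p.1 : ℕ)) p.2 j) = 1)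
    (W : (Matrix (Fin k) (Fin k) R)ˣ)
    (hW : W = 1 ∨ ∃ P Q P' Q' : (Matrix (Fin k) (Fin k) R)ˣ,
      W = P * Q * P⁻¹ * Q⁻¹ * (P' * Q' * P'⁻¹ * Q'⁻¹) ∧
      IsUnit (aeval (Q' : Matrix (Fin k) (Fin k) R) (Q : Matrix (Fin k) (Fin k) R).charpoly) ∧
      IsUnit ((Q : Matrix (Fin k) (Fin k) R) - 1) ∧ IsUnit ((Q' : Matrix (Fin k) (Fin k) R) - 1))
    (V : ℕ → Matrix (Fin k) (Fin k) R)
    (hC : U * C ^ m = (-1 : R) ^ (m + 1) • ((W : Matrix (Fin k) (Fin k) R) * U) +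
      ∑ i ∈ Finset.range (m - 1), V i * (U * C ^ (i + 1))) :
    ∃ A B : (Matrix (Fin n) (Fin n) R)ˣ,
      ((A * B * A⁻¹ * B⁻¹ : (Matrix (Fin n) (Fin n) R)ˣ) : Matrix (Fin n) (Fin n) R) = C := by
  obtain ⟨r, rfl⟩ : ∃ r, m = r + 3 := ⟨m - 3, by omega⟩
  let e : (Fin (r + 1) × Fin k) ⊕ (Fin k ⊕ Fin k) ≃ Fin (r + 3) × Fin k :=
    Equiv.ofBijective (f r k) (f_bij r k)
  have hT : fromRows (Kry C U (r + 1)) (fromRows (U * C ^ (r + 1)) (U * C ^ (r + 2))) =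
      (Matrix.of fun (p : Fin (r + 3) × Fin k) j => (U * C ^ (p.1 : ℕ)) p.2 j).submatrix e id := by
    ext (⟨i, a⟩ | a | a) j <;> rfl
  have h1' : fromRows (Kry C U (r + 1)) (fromRows (U * C ^ (r + 1)) (U * C ^ (r + 2))) *
      T'.submatrix id e = 1 := by
    rw [hT, Matrix.submatrix_mul _ _ e id e Function.bijective_id |>.symm, h1,
      Matrix.submatrix_one_equiv]
  have h2' : T'.submatrix id e *
      fromRows (Kry C U (r + 1)) (fromRows (U * C ^ (r + 1)) (U * C ^ (r + 2))) = 1 := by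
    rw [hT, Matrix.submatrix_mul_equiv, h2, Matrix.submatrix_id_id]
  have hC' : U * C ^ (r + 3) = (-1 : R) ^ (r + 2) • ((W : Matrix (Fin k) (Fin k) R) * U) +
      ∑ i ∈ Finset.range (r + 2), V i * (U * C ^ (i + 1)) := by
    have : (-1 : R) ^ (r + 3 + 1) = (-1) ^ (r + 2) := by
      rw [show r + 3 + 1 = (r + 2) + 2 by ring, pow_add]; norm_num
    rw [this] at hC
    exact hC
  rcases hW with rfl | ⟨P, Q, P', Q', rfl, hQ, hQ1, hQ2⟩
  · exact blockCycW r C U _ h1' h2' 1 3 exA exB exAB exB_unit V (by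
      rw [Units.val_one] at hC'; exact hC')
  · obtain ⟨A₂, B₂, h, hB⟩ := two_partner P Q P' Q' _ (Matrix.aeval_self_charpoly _) hQ 0
    refine blockCycW r C U _ h1' h2' _ 0 A₂ B₂ h ?_ V hC'
    refine Cj_unit (Cj_aeval hB.symm _) ?_
    rw [aeval_diag, map_sub, map_sub, aeval_X, aeval_X, map_one, map_one]
    obtain ⟨a, ha⟩ := hQ1
    obtain ⟨b, hb⟩ := hQ2
    rw [← ha, ← hb]
    exact (diagU a b).isUnit

end Pool.Agent.Results.MP_584b0c_al.BlockCyclic
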