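import Pool.Agent.H89.Comm.All

/-!
# A two-vector criterion for commutators in `GL_n(ℤ)`

Let `n ≥ 3`, `n ≠ 4`, and let `C` be an `n × n` integer matrix of determinant `1`. If there are integer
vectors `v`, `z` such that both `(v, C v, …, C ^ (n-2) v, z)` and `(C v, …, C ^ (n-2) v, z, C z)` are
bases of `ℤⁿ`, then `C` is a commutator of two matrices in `GL_n(ℤ)`. The case `z = C ^ (n-1) v` is
the case of a cyclic vector.
-/

set_option autoImplicit false

namespace Pool.Agent.Results.MP_584b0c_al.TwoVectors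

open Matrix

/-- The matrix with columns `v, C v, …, C ^ (n-2) v, z`. -/
def chainThen {n : ℕ} (C : Matrix (Fin n) (Fin n) ℤ) (v z : Fin n → ℤ) : Matrix (Fin n) (Fin n) ℤ :=
  Matrix.of fun i j : Fin n => if (j : ℕ) + 1 < n then ((C ^ (j : ℕ)) *ᵥ v) i else z i

/-- The matrix with columns `C v, …, C ^ (n-2) v, z, C z`. -/
def shiftedChainThen {n : ℕ} (C : Matrix (Fin n) (Fin n) ℤ) (v z : Fin n → ℤ) :
    Matrix (Fin n) (Fin n) ℤ :=
  Matrix.of fun i j : Fin n =>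
    if (j : ℕ) + 2 < n then ((C ^ ((j : ℕ) + 1)) *ᵥ v) i
    else if (j : ℕ) + 2 = n then z i else (C *ᵥ z) i

theorem result (n : ℕ) (hn : 3 ≤ n) (hn4 : n ≠ 4) (C : Matrix (Fin n) (Fin n) ℤ)
    (hC : C.det = 1) (v z : Fin n → ℤ)
    (h1 : IsUnit (chainThen C v z).det) (h2 : IsUnit (shiftedChainThen C v z).det) :
    ∃ A B : (Matrix (Fin n) (Fin n) ℤ)ˣ,
      ((A * B * A⁻¹ * B⁻¹ : (Matrix (Fin n) (Fin n) ℤ)ˣ) : Matrix (Fin n) (Fin n) ℤ) = C :=
  Pool.H89.Comm.two_vectors_all n hn hn4 C hC v z h1 h2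

end Pool.Agent.Results.MP_584b0c_al.TwoVectors
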